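import Pool.Agent.R523.BCMat
import Pool.Agent.R523.BCTop

/-!
# Contraction does not preserve the Brown-Colbourn property of simple matroids

The counterexample is the free coextension of the rank-3 matroid on seven points whose three-point
lines are `{0,2,3}`, `{1,4,5}`, `{2,4,6}`, `{3,5,6}`: a simple matroid of rank 4 on eight elements.
-/

set_option autoImplicit false

namespace Pool.Agent.Results.MP_e16cac_co.ContractionFails

open Complex R523.BC

/-- The spanning-set polynomial of `M` evaluated at `v`: the sum over the spanning sets `A` of `M` of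
the product of the `v e`, `e` in `A`. -/
noncomputable def spanningPoly {α : Type*} [Fintype α] (M : Matroid α) (v : α → ℂ) : ℂ :=
  open Classical in
  ∑ A ∈ Finset.univ.filter (fun A : Finset α => M.Spanning (A : Set α)), ∏ e ∈ A, v e

/-- The multivariate Brown-Colbourn property. -/
def BrownColbourn {α : Type*} [Fintype α] (M : Matroid α) : Prop :=
  ∀ v : α → ℂ, (∀ e ∈ M.E, ‖1 + v e‖ < 1) → spanningPoly M v ≠ 0

/-- `M` is simple: any two elements of the ground set, equal or not, form an independent set, that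
is, there are no loops and no two parallel elements. -/
def IsSimple {α : Type*} (M : Matroid α) : Prop :=
  ∀ e ∈ M.E, ∀ f ∈ M.E, M.Indep {e, f}

/-- the disc `|1 + v| < 1` in terms of `w = -2 / v - 1` -/
theorem disc (v : ℂ) (hv : ‖1 + v‖ < 1) : v ≠ 0 ∧ 0 < (-2 / v - 1).re := by
  have h1 : (1 + v.re) * (1 + v.re) + v.im * v.im < 1 := by
    have h2 : ‖1 + v‖ ^ 2 < 1 := by
      have := norm_nonneg (1 + v)
      nlinarith
    rw [Complex.sq_norm, Complex.normSq_apply] at h2
    simpa using h2
  have hv0 : v ≠ 0 := by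
    rintro rfl
    simp at h1
  refine ⟨hv0, ?_⟩
  have hpos := Complex.normSq_pos.mpr hv0
  rw [Complex.sub_re, Complex.div_re]
  have h3 : (-2 : ℂ).re = -2 := by simp
  have h4 : (-2 : ℂ).im = 0 := by simp
  rw [h3, h4, Complex.one_re, zero_mul, zero_div, add_zero, sub_pos, lt_div_iff₀ hpos,
    Complex.normSq_apply]
  nlinarith

/-- conversely -/
theorem disc' (u : ℂ) (hu : 1 < u.re) : ‖1 + -2 / u‖ < 1 := by
  have hu0 : u ≠ 0 := by
    rintro rfl
    simp at hu; linarith
  have h1 : 1 + -2 / u = (u - 2) / u := by field_simp; ring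
  rw [h1, norm_div, div_lt_one (norm_pos_iff.mpr hu0), ← sq_lt_sq₀ (norm_nonneg _) (norm_nonneg _),
    Complex.sq_norm, Complex.sq_norm, Complex.normSq_apply, Complex.normSq_apply]
  simp
  nlinarith

theorem filter_univ_eq :
    (open Classical in Finset.univ.filter (fun A : Finset (Fin 8) => Mx.Spanning (A : Set (Fin 8)))) =
      (Finset.univ : Finset (Fin 8)).powerset.filter
        (fun A => (Finset.univ \ A).card ≤ 4 ∧ (Finset.univ \ A) ∉ badc) := by
  ext A
  simp [Mx_spanning]

theorem filter_contract_eq :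
    (open Classical in Finset.univ.filter
      (fun A : Finset (Fin 8) => (Mx.contract {7}).Spanning (A : Set (Fin 8)))) =
      ((Finset.univ : Finset (Fin 8)).erase 7).powerset.filter
        (fun A => (Finset.univ.erase 7 \ A).card ≤ 4 ∧ (Finset.univ.erase 7 \ A) ∉ badc) := by
  ext A
  simp only [Finset.mem_filter, Finset.mem_univ, true_and, Finset.mem_powerset]
  rw [Mx_contract_spanning]

theorem sum_badc (u : Fin 8 → ℂ) : ∑ B ∈ badc, ∏ i ∈ B, u i =
    u 1 * u 4 * u 5 * u 6 + u 0 * u 2 * u 3 * u 6 + u 0 * u 1 * u 3 * u 5 + u 0 * u 1 * u 2 * u 4 := by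
  unfold badc
  rw [Finset.sum_insert (by decide), Finset.sum_insert (by decide), Finset.sum_insert (by decide),
    Finset.sum_singleton]
  rw [Finset.prod_insert (by decide), Finset.prod_insert (by decide), Finset.prod_insert (by decide),
    Finset.prod_singleton]
  rw [Finset.prod_insert (by decide), Finset.prod_insert (by decide), Finset.prod_insert (by decide),
    Finset.prod_singleton]
  rw [Finset.prod_insert (by decide), Finset.prod_insert (by decide), Finset.prod_insert (by decide),
    Finset.prod_singleton]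
  rw [Finset.prod_insert (by decide), Finset.prod_insert (by decide), Finset.prod_insert (by decide),
    Finset.prod_singleton]
  ring

/-- The matroid `Mx` has the Brown-Colbourn property. -/
theorem Mx_bc : BrownColbourn Mx := by
  intro v hv
  have hv' : ∀ e, ‖1 + v e‖ < 1 := fun e => hv e (by rw [Mx_ground]; exact Set.mem_univ _)
  obtain ⟨w, hw⟩ : ∃ w : Fin 8 → ℂ, ∀ i, w i = -2 / v i - 1 := ⟨_, fun _ => rfl⟩
  have hwpos : ∀ i, 0 < (w i).re := fun i => by rw [hw]; exact (disc _ (hv' i)).2
  have huv : ∀ i ∈ (Finset.univ : Finset (Fin 8)), v i * (1 + w i) = -2 := by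
    intro i _
    rw [hw]
    have := (disc _ (hv' i)).1
    field_simp
    ring
  have key := key_sum Finset.univ (Finset.erase_subset _ _) v (fun i => 1 + w i) huv
  unfold spanningPoly
  rw [filter_univ_eq]
  intro h0
  rw [h0, zero_mul] at key
  simp only [esum_univ, sum_badc, Finset.sum_range_succ, Finset.sum_range_zero, Finset.card_univ,
    Fintype.card_fin] at key
  apply top (fun i => w i.castSucc) (fun i => (hwpos _).le) (w 7) (hwpos 7)
  have e0 : (Fin.castSucc (0 : Fin 7)) = 0 := rfl
  have e1 : (Fin.castSucc (1 : Fin 7)) = 1 := rfl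
  have e2 : (Fin.castSucc (2 : Fin 7)) = 2 := rfl
  have e3 : (Fin.castSucc (3 : Fin 7)) = 3 := rfl
  have e4 : (Fin.castSucc (4 : Fin 7)) = 4 := rfl
  have e5 : (Fin.castSucc (5 : Fin 7)) = 5 := rfl
  have e6 : (Fin.castSucc (6 : Fin 7)) = 6 := rfl
  simp only [al, be, e0, e1, e2, e3, e4, e5, e6]
  simp only [es] at key ⊢
  linear_combination (-1 / 16) * key

/-- The contraction of `Mx` by `7` does not have the Brown-Colbourn property. -/
theorem Mx_contract_not_bc : ¬ BrownColbourn (Mx.contract {7}) := by
  intro hbc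
  obtain ⟨a, ha⟩ : ∃ a : ℂ, a = 41 / 40 + 26 * I := ⟨_, rfl⟩
  obtain ⟨b, hb⟩ : ∃ b : ℂ, b = 41 / 40 - 10 * I := ⟨_, rfl⟩
  obtain ⟨c, hc⟩ : ∃ c : ℂ, c = 12860374748514067 / 12837121875776720 +
    2349901211996011 / 160464023447209 * I := ⟨_, rfl⟩
  have hare : 1 < a.re := by rw [ha]; norm_num
  have hbre : 1 < b.re := by rw [hb]; norm_num
  have hcre : 1 < c.re := by rw [hc]; norm_num
  obtain ⟨u, hu⟩ : ∃ u : Fin 8 → ℂ, u = ![a, a, b, b, b, b, c, 2] := ⟨_, rfl⟩
  have hure : ∀ i, 1 < (u i).re := by
    intro i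
    rw [hu]
    fin_cases i <;> simp [hare, hbre, hcre]
  have hune : ∀ i, u i ≠ 0 := by
    intro i h
    have := hure i
    rw [h] at this
    simp at this; linarith
  have huv : ∀ i ∈ (Finset.univ : Finset (Fin 8)).erase 7, (-2 / u i) * u i = -2 := by
    intro i _
    have := hune i
    field_simp
  have key := key_sum (Finset.univ.erase 7) (Finset.Subset.refl _) (fun i => -2 / u i) u huv
  have h0 : ∑ k ∈ Finset.range 5, (-2 : ℂ) ^ ((Finset.univ.erase (7 : Fin 8)).card - k) *
      ∑ B ∈ Finset.powersetCard k (Finset.univ.erase (7 : Fin 8)), ∏ i ∈ B, u i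
      - (-2) ^ ((Finset.univ.erase (7 : Fin 8)).card - 4) * ∑ B ∈ badc, ∏ i ∈ B, u i = 0 := by
    have hcard : (Finset.univ.erase (7 : Fin 8)).card = 7 := by decide
    simp only [esum_erase, sum_badc, Finset.sum_range_succ, Finset.sum_range_zero, hcard]
    have u0 : u 0 = a := by rw [hu]; rfl
    have u1 : u 1 = a := by rw [hu]; rfl
    have u2 : u 2 = b := by rw [hu]; rfl
    have u3 : u 3 = b := by rw [hu]; rfl
    have u4 : u 4 = b := by rw [hu]; rfl
    have u5 : u 5 = b := by rw [hu]; rfl
    have u6 : u 6 = c := by rw [hu]; rfl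
    rw [u0, u1, u2, u3, u4, u5, u6]
    simp only [es]
    rw [ha, hb, hc]
    linear_combination (-8 : ℂ) * (89616142582289303 / 16046402344720900 +
      49811619933154648 / 802320117236045 * I -
      225906810881963840 / 160464023447209 * I ^ 2) * I_sq
  rw [h0] at key
  have hprod : ∏ i ∈ Finset.univ.erase (7 : Fin 8), u i ≠ 0 :=
    Finset.prod_ne_zero_iff.mpr fun i _ => hune i
  apply hbc (fun i => -2 / u i) (fun i _ => disc' _ (hure i))
  unfold spanningPoly
  rw [filter_contract_eq]
  exact (mul_eq_zero.mp key).resolve_right hprod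

/-- **Contraction does not preserve the Brown-Colbourn property of simple matroids.** There are a
simple matroid on eight elements with the Brown-Colbourn property and an element whose contraction
does not have it. -/
theorem result : ∃ (M : Matroid (Fin 8)) (e : Fin 8), M.E = Set.univ ∧ IsSimple M ∧
    BrownColbourn M ∧ ¬ BrownColbourn (M.contract {e}) := by
  refine ⟨Mx, 7, Mx_ground, ?_, Mx_bc, Mx_contract_not_bc⟩
  intro e _ f _
  have h : (({e, f} : Finset (Fin 8)) : Set (Fin 8)) = {e, f} := by simp
  rw [← h, Mx_indep]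
  have : ∀ e f : Fin 8, Ind {e, f} := by decide +kernel
  exact this e f

end Pool.Agent.Results.MP_e16cac_co.ContractionFails
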